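import Pool.Agent.Helper34.LM.Frames
import Pool.Agent.Helper95.LM.C
import Pool.Agent.Helper58.LM.D
import Pool.Agent.Helper4.LM.G
import Pool.Agent.Helper50.LM.H

/-!
Module LM-K: the certificate of a local optimum.
-/

set_option autoImplicit false

namespace Pool.Agent.Helper36.LM

open Module Finset

variable {K : Type} [Field K] {E : Type} [AddCommGroup E] [Module K E] [FiniteDimensional K E]
  {ι : Type} [Fintype ι]

namespace Conf

namespace Cert

/-- neighbouring indices, for chosen frames -/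
def rel (C : Conf K E ι) (c : ι → Dual K E) (ψ : ι → E) (i j : ι) : Prop :=
  i ∈ C.one ∧ j ∈ C.one ∧ c i (ψ j) ≠ 0

/-- the generators of the spaces of the certificate -/
def gens (C : Conf K E ι) (c : ι → Dual K E) (ψ : ι → E) (d : ι → Dual K E)
    (A : Quot (rel C c ψ)) : Set E :=
  {v | (∃ i ∈ C.one, Quot.mk _ i = A ∧ v = ψ i) ∨
    ∃ (i j : ι) (δ : K), rel C c ψ i j ∧ Quot.mk _ i = A ∧ C.T v = d i - δ • d j}

/-- the spaces of the certificate -/
def W (C : Conf K E ι) (c : ι → Dual K E) (ψ : ι → E) (d : ι → Dual K E)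
    (A : Quot (rel C c ψ)) : Submodule K E := Submodule.span K (gens C c ψ d A)

variable {C : Conf K E ι} {c : ι → Dual K E} {ψ : ι → E} {d : ι → Dual K E}

theorem eq_zero_of_ne {i k : ι} (hi : i ∈ C.one) (hk : k ∈ C.one)
    (h : (Quot.mk (rel C c ψ) i) ≠ Quot.mk (rel C c ψ) k) : c i (ψ k) = 0 := by
  by_contra h0
  exact h (Quot.sound ⟨hi, hk, h0⟩)

theorem gens_orth (hK : Big K (2 + Fintype.card ι + 2 * Fintype.card ι ^ 2))
    (hI : ¬ C.Imp C.pot 3) (hF : ∀ i ∈ C.one, C.Fr i (c i) (ψ i) (d i))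
    {A B : Quot (rel C c ψ)} (hAB : A ≠ B) {u v : E} (hu : u ∈ gens C c ψ d A)
    (hv : v ∈ gens C c ψ d B) : C.T u v = 0 := by
  have hI2 : ¬ C.Imp C.pot 2 := fun h => hI (h.mono (by norm_num))
  rcases hu with ⟨i, hi, rfl, rfl⟩ | ⟨i, j, δ, hij, rfl, hu⟩
  · rcases hv with ⟨k, hk, rfl, rfl⟩ | ⟨k, l, δ, hkl, rfl, hv⟩
    · rw [(hF i hi).eq]
      exact eq_zero_of_ne hi hk hAB
    · rw [swap, L3 hK le_rfl hI2 (hF k hkl.1) (hF l hkl.2.1) (hF i hi) hkl.2.2
        (eq_zero_of_ne hkl.1 hi (Ne.symm hAB)) (eq_zero_of_ne hkl.2.1 hi ?_) hv, neg_zero]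
      rw [← Quot.sound hkl]
      exact Ne.symm hAB
  · have ej : Quot.mk (rel C c ψ) i = Quot.mk (rel C c ψ) j := Quot.sound hij
    rcases hv with ⟨k, hk, rfl, rfl⟩ | ⟨l, k, δ', hlk, rfl, hv⟩
    · exact L3 hK le_rfl hI2 (hF i hij.1) (hF j hij.2.1) (hF k hk) hij.2.2
        (eq_zero_of_ne hij.1 hk hAB) (eq_zero_of_ne hij.2.1 hk (by rw [← ej]; exact hAB)) hu
    · have ek : Quot.mk (rel C c ψ) l = Quot.mk (rel C c ψ) k := Quot.sound hlk
      exact L5 hK le_rfl hI (hF i hij.1) (hF j hij.2.1) (hF k hlk.2.1) (hF l hlk.1) hij.2.2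
        hlk.2.2 (eq_zero_of_ne hij.1 hlk.2.1 (by rw [← ek]; exact hAB))
        (eq_zero_of_ne hij.1 hlk.1 hAB)
        (eq_zero_of_ne hij.2.1 hlk.2.1 (by rw [← ej, ← ek]; exact hAB))
        (eq_zero_of_ne hij.2.1 hlk.1 (by rw [← ej]; exact hAB)) hu hv

theorem W_orth (hK : Big K (2 + Fintype.card ι + 2 * Fintype.card ι ^ 2))
    (hI : ¬ C.Imp C.pot 3) (hF : ∀ i ∈ C.one, C.Fr i (c i) (ψ i) (d i))
    {A B : Quot (rel C c ψ)} (hAB : A ≠ B) {u v : E} (hu : u ∈ W C c ψ d A)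
    (hv : v ∈ W C c ψ d B) : C.T u v = 0 := by
  have h1 : ∀ v ∈ gens C c ψ d B, ∀ u ∈ W C c ψ d A, C.T u v = 0 := by
    intro v hv
    have : W C c ψ d A ≤ LinearMap.ker (C.T.flip v) := by
      unfold W
      rw [Submodule.span_le]
      intro u hu
      exact gens_orth hK hI hF hAB hu hv
    exact fun u hu => this hu
  have h2 : W C c ψ d B ≤ LinearMap.ker (C.T u) := by
    conv_lhs => unfold W
    rw [Submodule.span_le]
    intro v hv
    exact h1 v hv u hu
  exact h2 hv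

/-- the relation between the `d i` in one class -/
theorem class_rel (hK : Big K (2 + Fintype.card ι + 2 * Fintype.card ι ^ 2))
    (hI : ¬ C.Imp C.pot 3) (hF : ∀ i ∈ C.one, C.Fr i (c i) (ψ i) (d i)) {i j : ι}
    (h : Relation.EqvGen (rel C c ψ) i j) : Quot.mk (rel C c ψ) i = Quot.mk (rel C c ψ) j ∧
      ∃ δ : K, δ ≠ 0 ∧ d i - δ • d j ∈ (W C c ψ d (Quot.mk _ i)).map C.T := by
  have hI2 : ¬ C.Imp C.pot 2 := fun h => hI (h.mono (by norm_num))
  induction h with
  | rel i j h =>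
    refine ⟨Quot.sound h, ?_⟩
    obtain ⟨δ, hδ, η, hη⟩ := L1 hK le_rfl hI2 (hF i h.1) (hF j h.2.1) h.2.2
    exact ⟨δ, hδ, η, Submodule.subset_span (Or.inr ⟨i, j, δ, h, rfl, hη⟩), hη⟩
  | refl i => exact ⟨rfl, 1, one_ne_zero, by rw [one_smul, sub_self]; exact Submodule.zero_mem _⟩
  | symm i j _ ih =>
    obtain ⟨e, δ, hδ, hm⟩ := ih
    refine ⟨e.symm, δ⁻¹, inv_ne_zero hδ, ?_⟩
    rw [← e]
    have h2 := Submodule.smul_mem _ (-δ⁻¹) hm
    have e2 : (-δ⁻¹) • (d i - δ • d j) = d j - δ⁻¹ • d i := by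
      rw [smul_sub, neg_smul, neg_smul, smul_smul, inv_mul_cancel₀ hδ, one_smul]; abel
    rwa [e2] at h2
  | trans i j k _ _ ih1 ih2 =>
    obtain ⟨e1, δ, hδ, hm⟩ := ih1
    obtain ⟨e2, δ', hδ', hm'⟩ := ih2
    refine ⟨e1.trans e2, δ * δ', mul_ne_zero hδ hδ', ?_⟩
    rw [← e1] at hm'
    have h2 := Submodule.add_mem _ hm (Submodule.smul_mem _ δ hm')
    have e3 : d i - δ • d j + δ • (d j - δ' • d k) = d i - (δ * δ') • d k := by
      rw [smul_sub, smul_smul]; abel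
    rwa [e3] at h2

end Cert

open Cert in
/-- LM-K -/
theorem certificate (hK : Big K (2 + Fintype.card ι + 2 * Fintype.card ι ^ 2)) (C : Conf K E ι)
    (hI : ¬ C.Imp C.pot 3) :
    ∃ (κ : Type) (_ : Fintype κ) (W : κ → Submodule K E) (d : κ → Dual K E),
      (∀ A B, A ≠ B → ∀ u ∈ W A, ∀ v ∈ W B, C.T u v = 0) ∧
      ∀ i, C.line i ≤ (orth C.T (⨆ A, W A)).map C.T ∨
        ∃ A, C.line i ≤ (W A).map C.T ⊔ Submodule.span K {d A} := by
  classical
  have hI2 : ¬ C.Imp C.pot 2 := fun h => hI (h.mono (by norm_num))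
  have hex : ∀ i, ∃ c ψ d, i ∈ C.one → C.Fr i c ψ d := by
    intro i
    by_cases h : i ∈ C.one
    · obtain ⟨c, ψ, d, hF⟩ := exists_fr h
      exact ⟨c, ψ, d, fun _ => hF⟩
    · exact ⟨0, 0, 0, fun h' => absurd h' h⟩
  choose c ψ d hF using hex
  refine ⟨Quot (rel C c ψ), Fintype.ofFinite _, Cert.W C c ψ d, fun A => d A.out, ?_, ?_⟩
  · intro A B hAB u hu v hv
    exact W_orth hK hI hF hAB hu hv
  · intro i
    rcases C.trichotomy i with h | h | h
    · exact absurd ((imp_of_bot h rfl le_rfl : C.Imp C.pot 1).mono (by norm_num)) hI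
    · right
      refine ⟨Quot.mk _ i, ?_⟩
      rw [(hF i h).span, Submodule.span_le]
      rintro f (rfl | hf)
      · refine Submodule.mem_sup_left ⟨ψ i, Submodule.subset_span (Or.inl ⟨i, h, rfl, rfl⟩), ?_⟩
        exact (hF i h).eq
      · rw [Set.mem_singleton_iff] at hf
        subst hf
        have hout : Relation.EqvGen (rel C c ψ) i (Quot.mk (rel C c ψ) i).out :=
          Quot.eqvGen_exact (Quot.out_eq _).symm
        obtain ⟨-, δ, -, hm⟩ := class_rel hK hI hF hout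
        have e : d i = (d i - δ • d (Quot.mk (rel C c ψ) i).out) +
            δ • d (Quot.mk (rel C c ψ) i).out := by abel
        rw [SetLike.mem_coe, e]
        exact Submodule.add_mem _ (Submodule.mem_sup_left hm) (Submodule.mem_sup_right
          (Submodule.smul_mem _ _ (Submodule.mem_span_singleton_self _)))
    · left
      intro f hf
      obtain ⟨φ, hφ⟩ := h hf
      refine ⟨φ, ?_, hφ⟩
      have hker : (⨆ A, Cert.W C c ψ d A) ≤ LinearMap.ker f := by
        refine iSup_le fun A => ?_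
        unfold Cert.W
        rw [Submodule.span_le]
        rintro v (⟨l, hl, -, rfl⟩ | ⟨l, j, δ, hlj, -, hv⟩)
        · exact L2 hK le_rfl hI2 h (hF l hl) hf
        · exact L4 hK le_rfl hI (hF l hlj.1) (hF j hlj.2.1) hlj.2.2 hv h hf
      intro w hw
      rw [swap, hφ]
      have := hker hw
      rw [LinearMap.mem_ker] at this
      rw [this, neg_zero]

end Conf

end Pool.Agent.Helper36.LM
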